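import Mathlib
import Pool.Agent.Results.MP_154433_an.CommutingErgodic

/-! The statement for powers of one map is a special case of the statement for commuting maps. -/

set_option autoImplicit false
open MeasureTheory ProbabilityTheory Filter Topology

namespace Pool.Agent.MP_154433_an.Contain

variable {X : Type} [MeasurableSpace X]

theorem mp_zpow (μ : Measure X) (T : X ≃ᵐ X) (h : MeasurePreserving (⇑T) μ μ) (z : ℤ) :
    MeasurePreserving (⇑((T.toEquiv : Equiv.Perm X) ^ z)) μ μ := by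
  induction z using Int.induction_on with
  | zero => simpa using MeasurePreserving.id μ
  | succ n ih =>
    rw [zpow_add_one, Equiv.Perm.coe_mul]
    exact ih.comp h
  | pred n ih =>
    rw [zpow_sub_one, Equiv.Perm.coe_mul]
    exact ih.comp (h.symm T)

theorem meas_zpow (T : X ≃ᵐ X) (z : ℤ) :
    Measurable (⇑((T.toEquiv : Equiv.Perm X) ^ z)) := by
  induction z using Int.induction_on with
  | zero => simpa using measurable_id
  | succ n ih =>
    rw [zpow_add_one, Equiv.Perm.coe_mul]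
    exact ih.comp T.measurable
  | pred n ih =>
    rw [zpow_sub_one, Equiv.Perm.coe_mul]
    exact ih.comp T.symm.measurable

/-- The integer power as a measurable equivalence. -/
def pw (T : X ≃ᵐ X) (z : ℤ) : X ≃ᵐ X where
  toEquiv := (T.toEquiv : Equiv.Perm X) ^ z
  measurable_toFun := meas_zpow T z
  measurable_invFun := by
    have := meas_zpow T (-z)
    rw [zpow_neg] at this
    exact this

theorem pw_coe (T : X ≃ᵐ X) (z : ℤ) : ⇑(pw T z) = ⇑((T.toEquiv : Equiv.Perm X) ^ z) := rfl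

theorem pw_iter (T : X ≃ᵐ X) (z : ℤ) (n : ℕ) :
    (⇑(pw T z))^[n] = ⇑((T.toEquiv : Equiv.Perm X) ^ (z * (n : ℕ))) := by
  rw [pw_coe, zpow_mul, zpow_natCast, Equiv.Perm.coe_pow]

theorem inv_mul (μ : Measure X) (T : X ≃ᵐ X) (h : MeasurePreserving (⇑T) μ μ) (z : ℤ)
    (S : Set X) (hS : ⇑((T.toEquiv : Equiv.Perm X) ^ z) ⁻¹' S =ᵐ[μ] S) (m : ℤ) :
    ⇑((T.toEquiv : Equiv.Perm X) ^ (z * m)) ⁻¹' S =ᵐ[μ] S := by
  have hneg : ⇑((T.toEquiv : Equiv.Perm X) ^ (-z)) ⁻¹' S =ᵐ[μ] S := by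
    have h1 := (mp_zpow μ T h (-z)).quasiMeasurePreserving.preimage_ae_eq hS
    rw [← Set.preimage_comp, ← Equiv.Perm.coe_mul, ← zpow_add] at h1
    simpa using h1.symm
  induction m using Int.induction_on with
  | zero => simpa using EventuallyEq.refl _ S
  | succ n ih =>
    rw [mul_add, mul_one, zpow_add, Equiv.Perm.coe_mul, Set.preimage_comp]
    exact ((mp_zpow μ T h z).quasiMeasurePreserving.preimage_ae_eq ih).trans hS
  | pred n ih =>
    rw [mul_sub, mul_one, sub_eq_add_neg, zpow_add, Equiv.Perm.coe_mul, Set.preimage_comp]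
    exact ((mp_zpow μ T h (-z)).quasiMeasurePreserving.preimage_ae_eq ih).trans hneg

theorem key (μ : Measure X) (T : X ≃ᵐ X) (h : MeasurePreserving (⇑T) μ μ) (z : ℤ)
    (S : Set X) (hS : ⇑((T.toEquiv : Equiv.Perm X) ^ z) ⁻¹' S =ᵐ[μ] S) (c : ℤ) :
    (⇑(pw T c))^[z.natAbs] ⁻¹' S =ᵐ[μ] S := by
  rw [pw_iter]
  have e : c * (z.natAbs : ℕ) = z * (z.sign * c) := by
    rw [← mul_assoc, Int.mul_sign_self, mul_comm]
  rw [e]
  exact inv_mul μ T h z S hS _

theorem powers :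
    ∀ (σ : ℕ → ℝ), (∀ n, 0 ≤ σ n ∧ σ n ≤ 1) → Antitone σ →
  Tendsto (fun n : ℕ => (n : ℝ) * σ n) atTop atTop →
  ∀ (Ω : Type) [MeasurableSpace Ω] (P : Measure Ω) [IsProbabilityMeasure P]
    (E : ℕ → Set Ω), (∀ n, MeasurableSet (E n)) → iIndepSet E P →
    (∀ n, P (E n) = ENNReal.ofReal (σ n)) →
  ∀ᵐ ω ∂P, ∀ (ℓ : ℕ) (k : Fin ℓ → ℤ)
    (X : Type) [MeasurableSpace X] (μ : Measure X) [IsProbabilityMeasure μ]
    (T : X ≃ᵐ X) (f : Fin ℓ → X → ℝ),
    MeasurePreserving (⇑T) μ μ → (∀ i, MemLp (f i) ⊤ μ) →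
    ∃ g : X → ℝ, MemLp g 2 μ ∧
      Tendsto (fun N : ℕ => eLpNorm (fun x => (N : ℝ)⁻¹ * (∑ n ∈ Finset.range N, ∏ i,
          f i (((T.toEquiv : Equiv.Perm X) ^ (k i * (Nat.nth (fun m => ω ∈ E m) n : ℕ))) x))
          - g x) 2 μ) atTop (𝓝 0) ∧
      Tendsto (fun N : ℕ => eLpNorm (fun x => (N : ℝ)⁻¹ * (∑ n ∈ Finset.Icc 1 N, ∏ i,
          f i (((T.toEquiv : Equiv.Perm X) ^ (k i * (n : ℕ))) x)) - g x) 2 μ) atTop (𝓝 0) := by
  intro σ h0 ha h Ω _ P _ E hE hi hP
  refine (Pool.Agent.Results.MP_154433_an.CommutingErgodic.result σ h0 ha h Ω P E hE hi hP).mono ?_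
  intro ω hω ℓ k X _ μ _ T f hT hf
  have := hω X μ ℓ (fun i => pw T (k i)) f (fun i => mp_zpow μ T hT (k i)) ?_ ?_ ?_ hf
  · simpa only [pw_iter] using this
  · intro i j x
    simp only [pw_coe]
    rw [← Equiv.Perm.mul_apply, ← Equiv.Perm.mul_apply, ← zpow_add, ← zpow_add, add_comm]
  · intro i
    by_cases hz : k i = 0
    · left
      rw [pw_coe, hz]
      simp
    · right
      exact ⟨(k i).natAbs, Nat.one_le_iff_ne_zero.2 (Int.natAbs_ne_zero.2 hz),
        fun S _ hS c => key μ T hT (k i) S hS (k c)⟩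
  · intro i j
    by_cases hz : k i = k j
    · left
      simp only [hz]
    · right
      refine ⟨(k i - k j).natAbs, Nat.one_le_iff_ne_zero.2 (Int.natAbs_ne_zero.2 (sub_ne_zero.2 hz)),
        fun S _ hS c => key μ T hT (k i - k j) S ?_ (k c)⟩
      have e : (fun x => pw T (k i) ((pw T (k j)).symm x)) =
          ⇑((T.toEquiv : Equiv.Perm X) ^ (k i - k j)) := by
        rw [sub_eq_add_neg, zpow_add, zpow_neg]
        rfl
      rw [← e]
      exact hS

end Pool.Agent.MP_154433_an.Contain
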